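import Mathlib

set_option autoImplicit false

namespace Pool.Agent.Results.MP_c566a2_co.Paths

open SimpleGraph

/-- `c` is a `p`-tuple walk-nonrepetitive `q`-colouring of the path `P_n`; walks are `w 0, …, w (2l-1)` -/
def IsWN (n p q : ℕ) (c : Fin n → Finset (Fin q)) : Prop :=
  (∀ v, (c v).card = p) ∧ ∀ l, 1 ≤ l → ∀ w : ℕ → Fin n, (∀ i, i + 1 < 2 * l → (pathGraph n).Adj (w i) (w (i + 1))) →
    (¬ ∀ i < l, w i = w (l + i)) → ∀ k : ℕ → Fin q, (∀ i < 2 * l, k i ∈ c (w i)) → ¬ ∀ i < l, k i = k (l + i)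

/-- the fractional walk-nonrepetitive chromatic number of `P_n` -/
noncomputable def piW (n : ℕ) : ℝ :=
  sInf {x | ∃ (p q : ℕ) (c : Fin n → Finset (Fin q)), 1 ≤ p ∧ p < q ∧ IsWN n p q c ∧ x = (q : ℝ) / p}

def t (n : ℕ) : ℕ := if n = 0 then 0 else (t (n / 2) + n) % 2
decreasing_by omega

lemma t_eq (n : ℕ) : t n = (t (n / 2) + n) % 2 := by
  rcases eq_or_ne n 0 with rfl | h
  · rw [t]; rfl
  · rw [t, if_neg h]

lemma ovl (D : ℕ) : ∀ x, 1 ≤ D → ¬ ∀ i ≤ D, t (x + i) = t (x + i + D) := by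
  induction D using Nat.strong_induction_on with
  | _ D ih =>
  intro x hD h
  rcases Nat.even_or_odd' D with ⟨E, rfl | rfl⟩
  · refine ih E (by omega) (x / 2) (by omega) fun j hj => ?_
    have h1 := h (2 * j) (by omega)
    rw [t_eq (x + _), t_eq (x + _ + _), show (x + 2 * j) / 2 = x / 2 + j by omega,
      show (x + 2 * j + 2 * E) / 2 = x / 2 + j + E by omega] at h1
    have := t_eq (x / 2 + j); have := t_eq (x / 2 + j + E); omega
  · have e : ∀ z, z % 2 = 0 → (t (z + 1) + t z) % 2 = 1 := fun z hz => by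
      rw [t_eq (z + 1), t_eq z, show (z + 1) / 2 = z / 2 by omega]; omega
    have alt : ∀ i ≤ 2 * E + 1, (t (x + i) + t x + i) % 2 = 0 := fun i hi => by
      induction i with
      | zero => simp only [add_zero]; omega
      | succ i ih =>
        have h0 := ih (by omega)
        have h1 := h i (by omega)
        have h2 := h (i + 1) hi
        have h3 := e (x + i)
        have h4 := e (x + i + (2 * E + 1))
        rw [show x + (i + 1) + (2 * E + 1) = x + i + (2 * E + 1) + 1 by omega] at h2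
        rw [← add_assoc x i 1] at h2 ⊢
        omega
    have h1 := alt _ le_rfl
    have h2 := h 0 (by omega)
    rw [add_zero] at h2; omega

def a (n : ℕ) : ℕ := t (n + 1) + 1 - t n

lemma a_sq (x D : ℕ) (hD : 1 ≤ D) : ¬ ∀ i < D, a (x + i) = a (x + i + D) := fun h => by
  have b : ∀ n, t n < 2 := fun n => by rw [t_eq]; omega
  have k : ∀ i ≤ D, t (x + i + D) + t x = t (x + i) + t (x + D) := fun i hi => by
    induction i with
    | zero => rw [add_zero, add_comm]
    | succ i ih =>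
      have h0 := ih (by omega)
      have h1 := h i hi
      have := b (x + i); have := b (x + i + D)
      rw [show x + (i + 1) + D = x + i + D + 1 by omega, ← add_assoc]
      unfold a at h1; omega
  refine ovl D x hD fun i hi => ?_
  have := k i hi; have := k D le_rfl; have := b x; have := b (x + D); have := b (x + D + D); omega

def col (n : ℕ) : ℕ := if n % 3 = 2 then 3 else a (2 * (n / 3) + n % 3)

lemma a_lt (n : ℕ) : a n < 3 := by have := t_eq (n + 1); unfold a; omega

lemma col_lt (n : ℕ) : col n < 4 := by have := a_lt (2 * (n / 3) + n % 3); unfold col; split_ifs <;> omega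

lemma col_two (x : ℕ) : col x ≠ col (x + 2) := by
  have h1 := a_lt (2 * (x / 3) + x % 3)
  have h2 := a_lt (2 * ((x + 2) / 3) + (x + 2) % 3)
  unfold col
  split_ifs <;> try omega
  intro h
  refine a_sq (2 * (x / 3) + x % 3) 1 le_rfl fun i hi => ?_
  obtain rfl : i = 0 := by omega
  rw [add_zero, h]; congr 1; omega

lemma col_sq (x D : ℕ) (hD : 1 ≤ D) : ¬ ∀ i < D, col (x + i) = col (x + i + D) := fun h => by
  have s : ∀ y, col y = 3 ↔ y % 3 = 2 := fun y => by
    have := a_lt (2 * (y / 3) + y % 3); unfold col; split_ifs <;> omega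
  by_cases h3 : D % 3 = 0
  · refine a_sq (2 * (x / 3) + x % 3) (2 * (D / 3)) (by omega) fun i hi => ?_
    have := h (3 * ((2 * (x / 3) + x % 3 + i) / 2) + (2 * (x / 3) + x % 3 + i) % 2 - x) (by omega)
    unfold col at this
    rw [if_neg (by omega), if_neg (by omega)] at this
    convert this using 2 <;> omega
  · rcases (show D = 1 ∨ D = 2 ∨ 3 ≤ D by omega) with rfl | rfl | h4
    · have h1 := h 0 one_pos
      have := s (x + 0); have := s (x + 0 + 1)
      have n1 : ¬ (x + 0) % 3 = 2 := by omega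
      have n2 : ¬ (x + 0 + 1) % 3 = 2 := by omega
      unfold col at h1
      rw [if_neg n1, if_neg n2] at h1
      refine a_sq (2 * (x / 3) + x % 3) 1 le_rfl fun i hi => ?_
      convert h1 using 2 <;> omega
    · exact col_two x (h 0 two_pos)
    · have := h (2 - x % 3) (by omega)
      have := s (x + (2 - x % 3)); have := s (x + (2 - x % 3) + D); omega

lemma ivt (w : ℕ → ℕ) (x : ℕ) : ∀ m, (∀ i < m, w i + 1 = w (i + 1) ∨ w (i + 1) + 1 = w i) →
    (w 0 ≤ x ∧ x ≤ w m ∨ w m ≤ x ∧ x ≤ w 0) → ∃ i ≤ m, w i = x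
  | 0, _, h => ⟨0, le_rfl, by omega⟩
  | m + 1, h, h' => by
    by_cases e : w (m + 1) = x
    · exact ⟨_, le_rfl, e⟩
    · have := h m m.lt_succ_self
      obtain ⟨i, hi, e⟩ := ivt w x m (fun i hi => h i (by omega)) (by omega)
      exact ⟨i, by omega, e⟩

lemma walk4 (l : ℕ) (w : ℕ → ℕ) (st : ∀ i, i + 1 < 2 * (l + 1) → w i + 1 = w (i + 1) ∨ w (i + 1) + 1 = w i)
    (h : ∀ i < l + 1, col (w i) = col (w (l + 1 + i))) : ∀ i < l + 1, w i = w (l + 1 + i) := by
  have turn : ∀ i, i + 2 < 2 * (l + 1) → (w (i + 2) = w i ↔ col (w (i + 2)) = col (w i)) := fun i hi =>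
    ⟨fun e => e ▸ rfl, fun e => by_contra fun ne => by
      have := st i (by omega)
      have : w (i + 1) + 1 = w (i + 2) ∨ w (i + 2) + 1 = w (i + 1) := st (i + 1) hi
      rcases (show w (i + 2) = w i + 2 ∨ w i = w (i + 2) + 2 by omega) with e' | e'
      exacts [col_two _ (e' ▸ e).symm, col_two _ (e' ▸ e)]⟩
  have tt : ∀ i, i + 2 < l + 1 → (w (i + 2) = w i ↔ w (l + 1 + i + 2) = w (l + 1 + i)) := fun i hi => by
    rw [turn i (by omega), turn _ (by omega), h _ hi, h i (by omega), add_assoc (l + 1)]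
  have ex : ∀ x, (w 0 ≤ x ∧ x ≤ w l ∨ w l ≤ x ∧ x ≤ w 0) → ∃ i ≤ l, w i = x := fun x =>
    ivt w x l fun i hi => st i (by omega)
  have sl := st l (by omega)
  by_cases e : l = 0 ∨ w (l + 1 + 1) + w 0 = w (l + 1) + w 1
  · have k : ∀ i < l + 1, w (l + 1 + i) + w 0 = w (l + 1) + w i ∧
        (i + 1 < l + 1 → w (l + 1 + i + 1) + w 0 = w (l + 1) + w (i + 1)) := fun i hi => by
      induction i with
      | zero => exact ⟨rfl, fun h => e.resolve_left (by omega)⟩
      | succ i ih =>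
        obtain ⟨h1, h2⟩ := ih (by omega)
        refine ⟨h2 hi, fun h3 => ?_⟩
        have := tt i h3; have := h2 hi
        have := st i (by omega); have := st (i + 1) (by omega)
        have := st (l + 1 + i) (by omega); have := st (l + 1 + i + 1) (by omega)
        simp only [add_assoc] at *; norm_num at *; omega
    rcases lt_trichotomy (w 0) (w (l + 1)) with h1 | h1 | h1
    · refine (col_sq (w 0) (w (l + 1) - w 0) (by omega) fun j hj => ?_).elim
      obtain ⟨i, hi, e⟩ := ex (w 0 + j) (by omega)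
      have := (k i (by omega)).1
      rw [← e, h i (by omega)]; congr 1; omega
    · intro i hi; have := (k i hi).1; omega
    · have k0 : ∀ j < w 0 - w (l + 1), ∃ i ≤ l, w i = w (l + 1) + 1 + j := fun j hj => ex _ (by omega)
      obtain ⟨i0, hi0, e0⟩ := k0 0 (by omega)
      have := (k i0 (by omega)).1
      refine (col_sq (w (l + 1 + i0)) (w 0 - w (l + 1)) (by omega) fun j hj => ?_).elim
      obtain ⟨i, hi, e⟩ := k0 j hj
      have := (k i (by omega)).1
      rw [show w (l + 1 + i0) + j = w (l + 1 + i) by omega, ← h i (by omega)]; congr 1; omega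
  · have k : ∀ i < l + 1, w (l + 1 + i) + w i = w (l + 1) + w 0 ∧
        (i + 1 < l + 1 → w (l + 1 + i + 1) + w (i + 1) = w (l + 1) + w 0) := fun i hi => by
      induction i with
      | zero =>
        have := st 0 (by omega); have := st (l + 1) (by omega)
        exact ⟨rfl, fun h => by simp only [add_zero, zero_add] at *; omega⟩
      | succ i ih =>
        obtain ⟨h1, h2⟩ := ih (by omega)
        refine ⟨h2 hi, fun h3 => ?_⟩
        have := tt i h3; have := h2 hi
        have := st i (by omega); have := st (i + 1) (by omega)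
        have := st (l + 1 + i) (by omega); have := st (l + 1 + i + 1) (by omega)
        simp only [add_assoc] at *; norm_num at *; omega
    have k1 : ∀ x, (w 0 ≤ x ∧ x ≤ w l ∨ w l ≤ x ∧ x ≤ w 0) → ∃ y, x + y = w (l + 1) + w 0 ∧ y ≠ x + 1 ∧ x ≠ y + 1 ∧
        y ≠ x + 2 ∧ x ≠ y + 2 := fun x hx => by
      obtain ⟨i, hi, rfl⟩ := ex x hx
      have h1 := h i (by omega)
      have o : ∀ z, col z ≠ col (z + 1) := fun z e => col_sq z 1 le_rfl fun j hj => by
        obtain rfl : j = 0 := by omega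
        exact e
      exact ⟨w (l + 1 + i), (Nat.add_comm _ _).trans (k i (by omega)).1, fun e => o _ (e ▸ h1), fun e => o _ (e ▸ h1).symm,
        fun e => col_two _ (e ▸ h1), fun e => col_two _ (e ▸ h1).symm⟩
    obtain ⟨_, _⟩ := k1 ((w 0 + w l) / 2) (by omega)
    obtain ⟨_, _⟩ := k1 ((w 0 + w l + 1) / 2) (by omega)
    omega

lemma walk3 (l : ℕ) (w : ℕ → ℕ) (b : ∀ i, w i < 5)
    (st : ∀ i, i + 1 < 2 * (l + 1) → w i + 1 = w (i + 1) ∨ w (i + 1) + 1 = w i)
    (h : ∀ i < l + 1, w i % 3 = w (l + 1 + i) % 3) : ∀ i < l + 1, w i = w (l + 1 + i) := by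
  have k : ∀ i < l + 1, w (l + 1 + i) + w 0 = w (l + 1) + w i := fun i hi => by
    induction i with
    | zero => rfl
    | succ i ih =>
      have := ih (by omega); have := h i (by omega); have := h _ hi
      have := st i (by omega); have := st (l + 1 + i) (by omega)
      simp only [add_assoc] at *; omega
  intro i hi
  have := k i hi; have := k l (by omega); have := st l (by omega); have h0 := h 0 (by omega)
  have := b 0; have := b l; have := b (l + 1); have := b (l + 1 + l)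
  rw [add_zero] at h0; omega

lemma up {n q : ℕ} (f : ℕ → ℕ) (b : ∀ x, f x < q) (h : ∀ (l : ℕ) (w : ℕ → ℕ), (∀ i, w i < n) →
    (∀ i, i + 1 < 2 * (l + 1) → w i + 1 = w (i + 1) ∨ w (i + 1) + 1 = w i) →
    (∀ i < l + 1, f (w i) = f (w (l + 1 + i))) → ∀ i < l + 1, w i = w (l + 1 + i)) :
    IsWN n 1 q fun v => {⟨f v, b v⟩} := by
  refine ⟨fun _ => rfl, fun l hl w st nb k hk e => nb fun i hi => Fin.ext ?_⟩
  obtain ⟨l, rfl⟩ : ∃ m, l = m + 1 := ⟨l - 1, by omega⟩
  refine h l (fun i => w i) (fun i => (w i).2) (fun i hi => pathGraph_adj.1 (st i hi)) (fun j hj => ?_) i hi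
  have h1 := Finset.mem_singleton.1 (hk j (by omega))
  have h2 := Finset.mem_singleton.1 (hk (l + 1 + j) (by omega))
  exact congrArg Fin.val (h1.symm.trans ((e j hj).trans h2))

lemma key {n p q : ℕ} {c : Fin n → Finset (Fin q)} (h : IsWN n p q c) (l : ℕ) (f : ℕ → ℕ) (b : ∀ i, f i < n)
    (st : ∀ i, i + 1 < 2 * (l + 1) → f i + 1 = f (i + 1) ∨ f (i + 1) + 1 = f i) (nb : f 0 ≠ f (l + 1)) :
    ∃ i < l + 1, Disjoint (c ⟨f i, b i⟩) (c ⟨f (l + 1 + i), b _⟩) := by
  by_contra! hn
  simp only [Finset.not_disjoint_iff] at hn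
  choose g g1 g2 using hn
  refine h.2 (l + 1) (by omega) (fun i => ⟨f i, b i⟩) (fun i hi => pathGraph_adj.2 (st i hi))
    (fun e => nb (congrArg Fin.val (e 0 (by omega)))) (fun i => g (i % (l + 1)) (Nat.mod_lt _ (by omega)))
    (fun i hi => ?_) fun i hi => by simp
  by_cases e : i < l + 1
  · simpa [Nat.mod_eq_of_lt e] using g1 i e
  · obtain ⟨j, rfl⟩ : ∃ j, i = l + 1 + j := ⟨i - (l + 1), by omega⟩
    have : j < l + 1 := by omega
    simpa [Nat.mod_eq_of_lt this] using g2 j this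

lemma d1 {n p q : ℕ} {c : Fin n → Finset (Fin q)} (h : IsWN n p q c) (u : ℕ) (hu : u + 1 < n) :
    Disjoint (c ⟨u, by omega⟩) (c ⟨u + 1, hu⟩) := by
  obtain ⟨i, hi, e⟩ := key h 0 (fun i => u + min i 1) (fun _ => by omega) (fun _ _ => by omega) (by omega)
  obtain rfl : i = 0 := by omega
  exact e

lemma d2 {n p q : ℕ} {c : Fin n → Finset (Fin q)} (h : IsWN n p q c) (hp : 1 ≤ p) (u : ℕ) (hu : u + 2 < n) :
    Disjoint (c ⟨u, by omega⟩) (c ⟨u + 2, hu⟩) := by
  obtain ⟨i, hi, e⟩ := key h 1 (fun i => if i < 3 then u + i else u + 1) (fun _ => by split_ifs <;> omega)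
    (fun _ _ => by split_ifs <;> omega) (by simp)
  obtain rfl | rfl : i = 0 ∨ i = 1 := by omega
  · exact e
  · have := h.1 ⟨u + 1, by omega⟩
    rw [disjoint_self.1 (show Disjoint (c ⟨u + 1, by omega⟩) (c ⟨u + 1, by omega⟩) from e)] at this
    exact absurd (this ▸ hp) (by simp)

theorem result : piW 5 = 3 ∧ ∀ n, 6 ≤ n → piW n = 4 := by
  refine ⟨IsLeast.csInf_eq ⟨⟨1, 3, _, le_rfl, by omega, up (· % 3) (fun _ => by omega) walk3, by norm_num⟩, ?_⟩,
    fun n hn => IsLeast.csInf_eq ⟨⟨1, 4, _, le_rfl, by omega, up col col_lt fun l w _ => walk4 l w, by norm_num⟩, ?_⟩⟩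
  all_goals
    rintro _ ⟨p, q, c, hp, -, h, rfl⟩
    rw [le_div_iff₀ (by positivity)]
    norm_cast
  · have := Finset.card_le_univ (c ⟨0, by omega⟩ ∪ c ⟨0 + 1, by omega⟩ ∪ c ⟨0 + 2, by omega⟩)
    rw [Finset.card_union_of_disjoint (Finset.disjoint_union_left.2 ⟨d2 h hp _ _, d1 h _ _⟩),
      Finset.card_union_of_disjoint (d1 h _ _), h.1, h.1, h.1, Fintype.card_fin] at this
    omega
  · obtain ⟨i, hi, e⟩ := key h 2 (fun i => min i 5) (fun _ => by omega) (fun _ _ => by omega) (by omega)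
    have e : Disjoint (c ⟨i, by omega⟩) (c ⟨i + 3, by omega⟩) := by convert e using 3 <;> omega
    have := Finset.card_le_univ (c ⟨i, by omega⟩ ∪ c ⟨i + 1, by omega⟩ ∪ c ⟨i + 2, by omega⟩ ∪ c ⟨i + 3, by omega⟩)
    rw [Finset.card_union_of_disjoint (Finset.disjoint_union_left.2 ⟨Finset.disjoint_union_left.2
      ⟨e, d2 h hp _ _⟩, d1 h _ _⟩),
      Finset.card_union_of_disjoint (Finset.disjoint_union_left.2 ⟨d2 h hp _ _, d1 h _ _⟩),
      Finset.card_union_of_disjoint (d1 h _ _), h.1, h.1, h.1, h.1, Fintype.card_fin] at this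
    omega

end Pool.Agent.Results.MP_c566a2_co.Paths
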